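import Pool.Agent.SCT.StmtsB

/-!
# Squad SCT, row MAT: two eigenspaces

With the matrix `D` with the rows `d j` and `P = 1 + α D + β D ^ 2 = (1 + s1 D) (1 + s2 D)` (a matrix over `K`): the kernel of
`P` has dimension at least `n`, and `1 = P - D (α + β D)`, so the rank of `D` is at least `n`.
-/

set_option autoImplicit false

namespace Pool.Agent.SCT.H31

open Matrix Module

section rk

variable {K Ω m : Type} [Field K] [Field Ω] [Fintype m] [DecidableEq m]

/-- the rank of a square matrix does not change under field extensions -/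
theorem rank_map' (f : K →+* Ω) (M : Matrix m m K) : (M.map f).rank = M.rank := by
  classical
  obtain ⟨V, U, e, hV, hU, h⟩ := M.exists_rank_normal_form
  have hV1 : IsUnit V.det := (isUnit_iff_isUnit_det _).1 hV
  have hU1 : IsUnit U.det := (isUnit_iff_isUnit_det _).1 hU
  have hV2 : IsUnit (V.map f).det := by
    have h0 : f V.det = (V.map f).det := RingHom.map_det f V
    rw [← h0]; exact hV1.map f
  have hU2 : IsUnit (U.map f).det := by
    have h0 : f U.det = (U.map f).det := RingHom.map_det f U
    rw [← h0]; exact hU1.map f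
  have h1 : M.rank = (V * M * U).rank := by
    rw [rank_mul_eq_left_of_isUnit_det U (V * M) hU1, rank_mul_eq_right_of_isUnit_det V M hV1]
  have h2 : (M.map f).rank = ((V * M * U).map f).rank := by
    rw [Matrix.map_mul, Matrix.map_mul, rank_mul_eq_left_of_isUnit_det (U.map f) _ hU2,
      rank_mul_eq_right_of_isUnit_det (V.map f) _ hV2]
  rw [h1, h2, h, ← diagonal_one, ← diagonal_zero, fromBlocks_diagonal, submatrix_diagonal_equiv,
    diagonal_map (map_zero f), rank_diagonal, rank_diagonal]
  refine Fintype.card_congr (Equiv.subtypeEquivRight fun i => ?_)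
  exact not_congr (map_eq_zero f)

theorem ker_add_rank (M : Matrix m m K) :
    M.rank + finrank K (LinearMap.ker M.mulVecLin) = Fintype.card m := by
  have h := LinearMap.finrank_range_add_finrank_ker M.mulVecLin
  rw [Module.finrank_fintype_fun_eq_card] at h
  exact h

theorem rank_add_le' (A B : Matrix m m K) : (A + B).rank ≤ A.rank + B.rank := by
  have h1 : (A + B).mulVecLin = A.mulVecLin + B.mulVecLin := Matrix.mulVecLin_add A B
  unfold Matrix.rank
  rw [h1]
  refine (Submodule.finrank_mono (LinearMap.range_add_le _ _)).trans ?_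
  exact Submodule.finrank_add_le_finrank_add_finrank _ _

/-- the final step -/
theorem rank_ge (D : Matrix m m K) (α β : K) (n : ℕ) (hc : Fintype.card m = n + 2)
    (h : n ≤ finrank K (LinearMap.ker (1 + α • D + β • (D * D)).mulVecLin)) : n ≤ D.rank := by
  have h1 := ker_add_rank (1 + α • D + β • (D * D))
  have h2 : (1 : Matrix m m K) = (1 + α • D + β • (D * D)) + D * (-(α • (1 : Matrix m m K)) -
      β • D) := by
    rw [mul_sub, mul_neg, mul_smul_comm, mul_smul_comm, mul_one]
    abel
  have h3 : (1 : Matrix m m K).rank ≤ (1 + α • D + β • (D * D)).rank + D.rank := by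
    conv_lhs => rw [h2]
    refine (rank_add_le' _ _).trans ?_
    exact Nat.add_le_add_left (rank_mul_le_left _ _) _
  rw [rank_one] at h3
  omega

end rk

section two

variable {K Ω : Type} [Field K] [Field Ω] [Algebra K Ω] {N : ℕ}

theorem prod_eq (D : Matrix (Fin N) (Fin N) K) (s1 s2 : Ω) (α β : K)
    (hs : s1 + s2 = algebraMap K Ω α) (hp : s1 * s2 = algebraMap K Ω β) :
    (1 + s1 • D.map (algebraMap K Ω)) * (1 + s2 • D.map (algebraMap K Ω)) =
      (1 + α • D + β • (D * D)).map (algebraMap K Ω) := by
  have h1 : (1 + α • D + β • (D * D)).map (algebraMap K Ω) =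
      1 + (s1 + s2) • D.map (algebraMap K Ω) +
        (s1 * s2) • (D.map (algebraMap K Ω) * D.map (algebraMap K Ω)) := by
    rw [hs, hp, ← Matrix.map_mul]
    ext i j
    simp only [Matrix.map_apply, Matrix.add_apply, Matrix.smul_apply, smul_eq_mul, map_add,
      map_mul, Matrix.one_apply]
    split_ifs <;> simp
  rw [h1, add_mul, mul_add, mul_add, one_mul, one_mul, mul_one, smul_mul_assoc, mul_smul_comm,
    smul_smul, add_smul]
  abel

/-- case (1): two different eigenvalues -/
theorem case1 (D : Matrix (Fin N) (Fin N) K) (s1 s2 : Ω) (α β : K) (a b n : ℕ)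
    (hab : a + b = n) (hN : N = n + 2)
    (hs : s1 + s2 = algebraMap K Ω α) (hp : s1 * s2 = algebraMap K Ω β)
    (hne : s1 ≠ s2)
    (h1 : (1 + s1 • D.map (algebraMap K Ω)).rank ≤ a + 2)
    (h2 : (1 + s2 • D.map (algebraMap K Ω)).rank ≤ b + 2) :
    n ≤ finrank K (LinearMap.ker (1 + α • D + β • (D * D)).mulVecLin) := by
  set DΩ := D.map (algebraMap K Ω) with hD
  set A1 := 1 + s1 • DΩ with hA1
  set A2 := 1 + s2 • DΩ with hA2
  have hcomm : A1 * A2 = A2 * A1 := by
    rw [hA1, hA2, add_mul, mul_add, mul_add, add_mul, mul_add, mul_add]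
    simp only [one_mul, mul_one, smul_mul_assoc, mul_smul_comm, smul_smul]
    rw [mul_comm s2 s1]
    abel
  have k1 := ker_add_rank A1
  have k2 := ker_add_rank A2
  have k3 := ker_add_rank (A1 * A2)
  have k4 := ker_add_rank (1 + α • D + β • (D * D))
  have e1 : (A1 * A2).rank = (1 + α • D + β • (D * D)).rank := by
    rw [prod_eq D s1 s2 α β hs hp, rank_map']
  rw [Fintype.card_fin] at k1 k2 k3 k4
  have hdis : Disjoint (LinearMap.ker A1.mulVecLin) (LinearMap.ker A2.mulVecLin) := by
    rw [Submodule.disjoint_def]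
    intro x hx1 hx2
    rw [LinearMap.mem_ker, Matrix.mulVecLin_apply, hA1, Matrix.add_mulVec, Matrix.one_mulVec,
      Matrix.smul_mulVec] at hx1
    rw [LinearMap.mem_ker, Matrix.mulVecLin_apply, hA2, Matrix.add_mulVec, Matrix.one_mulVec,
      Matrix.smul_mulVec] at hx2
    have h3 : (s1 - s2) • (DΩ *ᵥ x) = 0 := by
      rw [sub_smul, ← sub_eq_zero.2 (hx1.trans hx2.symm)]
      abel
    have h4 : DΩ *ᵥ x = 0 := (smul_eq_zero.1 h3).resolve_left (sub_ne_zero.2 hne)
    rw [h4, smul_zero, add_zero] at hx1
    exact hx1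
  have hle : LinearMap.ker A1.mulVecLin ⊔ LinearMap.ker A2.mulVecLin ≤
      LinearMap.ker (A1 * A2).mulVecLin := by
    refine sup_le ?_ ?_
    · intro x hx
      rw [LinearMap.mem_ker, Matrix.mulVecLin_apply] at hx ⊢
      rw [hcomm, ← Matrix.mulVec_mulVec, hx, Matrix.mulVec_zero]
    · intro x hx
      rw [LinearMap.mem_ker, Matrix.mulVecLin_apply] at hx ⊢
      rw [← Matrix.mulVec_mulVec, hx, Matrix.mulVec_zero]
  have h5 := Submodule.finrank_mono hle
  have h6 := Submodule.finrank_sup_add_finrank_inf_eq (LinearMap.ker A1.mulVecLin)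
    (LinearMap.ker A2.mulVecLin)
  rw [hdis.eq_bot, finrank_bot] at h6
  omega

/-- case (2): a double eigenvalue which is not in `K` -/
theorem case2 (D : Matrix (Fin N) (Fin N) K) (s : Ω) (α β : K) (a : ℕ)
    (hs : s + s = algebraMap K Ω α) (hp : s * s = algebraMap K Ω β) (hβ : β ≠ 0)
    (hne : ∀ z : K, s ≠ algebraMap K Ω z)
    (h1 : (1 + s • D.map (algebraMap K Ω)).rank + a ≤ N) :
    2 * a ≤ finrank K (LinearMap.ker (1 + α • D + β • (D * D)).mulVecLin) := by
  have hs0 : s ≠ 0 := by
    intro h
    exact hne 0 (by rw [h, map_zero])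
  -- the field `R = K(s)`
  set R := IntermediateField.adjoin K {s} with hR
  set r : R := ⟨s, IntermediateField.mem_adjoin_simple_self K s⟩ with hr
  have hrs : algebraMap R Ω r = s := rfl
  have hr0 : r ≠ 0 := fun h => hs0 (by rw [← hrs, h, map_zero])
  have hrsum : r + r = algebraMap K R α := by
    apply (algebraMap R Ω).injective
    rw [map_add, hrs, hs]; rfl
  have hrprod : r * r = algebraMap K R β := by
    apply (algebraMap R Ω).injective
    rw [map_mul, hrs, hp]; rfl
  have hroot : Polynomial.aeval s (Polynomial.X ^ 2 - Polynomial.C α * Polynomial.X +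
      Polynomial.C β) = 0 := by
    simp only [map_add, map_sub, map_mul, map_pow, Polynomial.aeval_X, Polynomial.aeval_C]
    rw [← hs, ← hp]; ring
  have hmon : (Polynomial.X ^ 2 - Polynomial.C α * Polynomial.X + Polynomial.C β).Monic := by
    monicity!
  have hdeg : (Polynomial.X ^ 2 - Polynomial.C α * Polynomial.X + Polynomial.C β).natDegree =
      2 := by
    compute_degree!
  have hint : IsIntegral K s := ⟨_, hmon, by rw [← Polynomial.aeval_def]; exact hroot⟩
  have hfd : FiniteDimensional K R := IntermediateField.adjoin.finiteDimensional hint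
  have hle2 : finrank K R ≤ 2 := by
    rw [IntermediateField.adjoin.finrank hint, ← hdeg]
    exact Polynomial.natDegree_le_of_dvd (minpoly.dvd K s hroot) hmon.ne_zero
  have hli : LinearIndependent K ![(1 : R), r⁻¹] := by
    rw [LinearIndependent.pair_iff]
    intro x y hxy
    have h2 : x • r + y • (1 : R) = 0 := by
      have h3 := congrArg (fun z => r * z) hxy
      simp only [mul_add, mul_smul_comm, mul_one, mul_zero, mul_inv_cancel₀ hr0] at h3
      exact h3
    by_cases hx : x = 0
    · rw [hx, zero_smul, zero_add] at h2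
      exact ⟨hx, (smul_eq_zero.1 h2).resolve_right one_ne_zero⟩
    · exfalso
      apply hne (-(x⁻¹ * y))
      have h4 : r = algebraMap K R (-(x⁻¹ * y)) := by
        have h5 : x • (r - algebraMap K R (-(x⁻¹ * y))) = 0 := by
          rw [smul_sub, Algebra.smul_def x (algebraMap K R (-(x⁻¹ * y))), ← map_mul,
            mul_neg, mul_inv_cancel_left₀ hx, map_neg, sub_neg_eq_add, Algebra.algebraMap_eq_smul_one y]
          exact h2
        exact sub_eq_zero.1 ((smul_eq_zero.1 h5).resolve_left hx)
      rw [← hrs, h4]; rfl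
  have hcard : Fintype.card (Fin 2) = finrank K R := by
    refine le_antisymm ?_ ?_
    · exact hli.fintype_card_le_finrank
    · rw [Fintype.card_fin]; exact hle2
  have hspan := hli.span_eq_top_of_card_eq_finrank' hcard
  -- the functional
  obtain ⟨φ, hφ⟩ : ∃ φ : Module.Dual K R, φ 1 ≠ 0 := by
    by_contra hcon
    push Not at hcon
    exact one_ne_zero ((Module.forall_dual_apply_eq_zero_iff K (1 : R)).1 hcon)
  -- the eigenspace over `R`
  set DR := D.map (algebraMap K R) with hDR
  set A := 1 + r • DR with hA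
  have hmap : A.map (algebraMap R Ω) = 1 + s • D.map (algebraMap K Ω) := by
    ext i j
    rw [Matrix.map_apply, hA, Matrix.add_apply, Matrix.smul_apply, Matrix.add_apply,
      Matrix.smul_apply, map_add, smul_eq_mul, map_mul, hrs, smul_eq_mul, Matrix.one_apply,
      Matrix.one_apply]
    congr 1
    split_ifs <;> simp
  have hrk : A.rank + a ≤ N := by
    rw [← rank_map' (algebraMap R Ω) A, hmap]; exact h1
  have hk := ker_add_rank A
  rw [Fintype.card_fin] at hk
  have hAA : A * A = (1 + α • D + β • (D * D)).map (algebraMap K R) :=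
    prod_eq D r r α β hrsum hrprod
  set P := 1 + α • D + β • (D * D) with hP
  have hφmul : ∀ (M : Matrix (Fin N) (Fin N) K) (x : Fin N → R),
      (M *ᵥ fun i => φ (x i)) = fun i => φ ((M.map (algebraMap K R) *ᵥ x) i) := by
    intro M x
    funext i
    simp only [Matrix.mulVec, dotProduct, Matrix.map_apply, map_sum]
    refine Finset.sum_congr rfl fun j _ => ?_
    rw [← Algebra.smul_def, map_smul, smul_eq_mul]
  set E := LinearMap.ker A.mulVecLin with hE
  let Φ0 : E →ₗ[K] (Fin N → K) :=
    { toFun := fun x i => φ ((x : Fin N → R) i)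
      map_add' := fun x y => by funext i; simp
      map_smul' := fun c x => by funext i; simp }
  have hmem : ∀ x : E, Φ0 x ∈ LinearMap.ker P.mulVecLin := by
    intro x
    have hx : A *ᵥ (x : Fin N → R) = 0 := by
      have h0 : A.mulVecLin (x : Fin N → R) = 0 := LinearMap.mem_ker.1 x.2
      rwa [Matrix.mulVecLin_apply] at h0
    rw [LinearMap.mem_ker, Matrix.mulVecLin_apply]
    change (P *ᵥ fun i => φ ((x : Fin N → R) i)) = 0
    rw [hφmul, ← hAA, ← Matrix.mulVec_mulVec, hx, Matrix.mulVec_zero]
    funext i
    exact map_zero φ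
  have hinj : Function.Injective (Φ0.codRestrict _ hmem) := by
    rw [← LinearMap.ker_eq_bot, LinearMap.ker_codRestrict, LinearMap.ker_eq_bot']
    intro x hx
    have hx' : A *ᵥ (x : Fin N → R) = 0 := by
      have h0 : A.mulVecLin (x : Fin N → R) = 0 := LinearMap.mem_ker.1 x.2
      rwa [Matrix.mulVecLin_apply] at h0
    have e1 : ∀ i, φ ((x : Fin N → R) i) = 0 := fun i => congrFun hx i
    have e2 : ∀ i, φ (r⁻¹ * (x : Fin N → R) i) = 0 := by
      intro i
      have h6 : (D *ᵥ fun i => φ ((x : Fin N → R) i)) = 0 := by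
        have : (fun i => φ ((x : Fin N → R) i)) = 0 := hx
        rw [this, Matrix.mulVec_zero]
      rw [hφmul] at h6
      have h7 := congrFun h6 i
      rw [hA, Matrix.add_mulVec, Matrix.one_mulVec, Matrix.smul_mulVec] at hx'
      have h8 := congrFun hx' i
      rw [Pi.add_apply, Pi.smul_apply, smul_eq_mul, Pi.zero_apply] at h8
      have h9 : r⁻¹ * (x : Fin N → R) i = -((DR *ᵥ (x : Fin N → R)) i) := by
        rw [inv_mul_eq_iff_eq_mul₀ hr0]
        linear_combination h8
      rw [h9, map_neg]
      rw [Pi.zero_apply] at h7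
      rw [h7, neg_zero]
    have e3 : ∀ (i : Fin N) (z : R), φ (z * (x : Fin N → R) i) = 0 := by
      intro i z
      have hz : z ∈ Submodule.span K (Set.range ![(1 : R), r⁻¹]) := by
        rw [hspan]; exact Submodule.mem_top
      refine Submodule.span_induction ?_ ?_ ?_ ?_ hz
      · rintro _ ⟨j, rfl⟩
        fin_cases j
        · simpa using e1 i
        · simpa using e2 i
      · rw [zero_mul, map_zero]
      · intro u v _ _ hu hv
        rw [add_mul, map_add, hu, hv, add_zero]
      · intro c u _ hu
        rw [smul_mul_assoc, map_smul, hu, smul_zero]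
    apply Subtype.ext
    funext i
    by_contra hcon
    have h10 := e3 i ((x : Fin N → R) i)⁻¹
    rw [inv_mul_cancel₀ hcon] at h10
    exact hφ h10
  have h11 := LinearMap.finrank_le_finrank_of_injective hinj
  have h12 : finrank K R * finrank R E = finrank K E := Module.finrank_mul_finrank K R E
  rw [← hcard, Fintype.card_fin] at h12
  omega

end two

theorem mat : MatStmt := by
  intro K Ω _ _ _ n a b T w d s1 s2 α β hab _ hs hp hβ hor h1 h2
  set D : Matrix (Fin (n + 2)) (Fin (n + 2)) K := Matrix.of d with hD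
  have hrow : ∀ (s : Ω) (c : ℕ), Module.finrank Ω (Submodule.span Ω
      (Set.range (fun (j : Fin (n + 2)) i => (if i = j then 1 else 0) +
      s * algebraMap K Ω (d j i)) ∪ {fun i => algebraMap K Ω (T i),
        fun i => algebraMap K Ω (w i)})) ≤ c + 2 →
      (1 + s • D.map (algebraMap K Ω)).rank ≤ c + 2 := by
    intro s c h
    refine le_trans ?_ h
    rw [rank_eq_finrank_span_row]
    refine Submodule.finrank_mono (Submodule.span_mono ?_)
    rintro _ ⟨j, rfl⟩
    refine Or.inl ⟨j, ?_⟩
    funext i
    simp only [Matrix.row, Matrix.add_apply, Matrix.one_apply, Matrix.smul_apply,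
      Matrix.map_apply, hD, Matrix.of_apply, smul_eq_mul, eq_comm]
  have r1 := hrow s1 a h1
  have r2 := hrow s2 b h2
  have hrank : D.rank = Module.finrank K (Submodule.span K (Set.range d)) :=
    rank_eq_finrank_span_row D
  rw [← hrank]
  refine rank_ge D α β n (by rw [Fintype.card_fin]) ?_
  by_cases hne : s1 = s2
  · subst hne
    have hz : ∀ z : K, s1 ≠ algebraMap K Ω z := hor.resolve_left (fun h => h rfl)
    rcases le_total a b with hle | hle
    · have := case2 D s1 α β b hs hp hβ hz (by omega)
      omega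
    · have := case2 D s1 α β a hs hp hβ hz (by omega)
      omega
  · exact case1 D s1 s2 α β a b n hab rfl hs hp hne r1 r2

end Pool.Agent.SCT.H31
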